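import Mathlib

/-!
A one-sided reversible cellular automaton on 64 symbols which simulates itself
with space factor 2 and time factor 4.
-/

set_option autoImplicit false

namespace Pool.Agent.MP_88e1ca_an

/-- clock, two buffer bits, and the type of the right neighbour one level up -/
abbrev Sym := Fin 4 × Bool × Bool × Bool

/-- a flag (level zero cell or not) and a symbol -/
abbrev Cell := Bool × Sym

def cmd (s : Sym) : Bool × Bool :=
  if s.2.2.2 then (if s.1 = 0 then (s.2.1, s.2.2.1) else (false, false))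
  else (if s.1 = 0 then (false, false) else if s.1 = 1 then (s.2.1, false)
    else if s.1 = 2 then (false, s.2.2.1) else (true, true))

def rd (s : Sym) : Bool :=
  if s.2.2.2 then (decide (s.1 = 0) || decide (s.1 = 3)) else (decide (s.1 = 0) || decide (s.1 = 2))

def k1 (s : Sym) : Sym := (s.1, xor s.2.1 (rd s), s.2.2.1, s.2.2.2)
def k2 (s : Sym) : Sym := (s.1, s.2.1, xor s.2.2.1 (rd s), s.2.2.2)
def k3 (s : Sym) : Sym := (s.1 + 1, s.2.1, s.2.2.1, s.2.2.2)
def k3i (s : Sym) : Sym := (s.1 + 3, s.2.1, s.2.2.1, s.2.2.2)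

def act (c : Bool × Bool) (s : Sym) : Sym :=
  if c.1 then (if c.2 then k3 s else k1 s) else (if c.2 then k2 s else s)

def acti (c : Bool × Bool) (s : Sym) : Sym :=
  if c.1 then (if c.2 then k3i s else k1 s) else (if c.2 then k2 s else s)

def step (c : Bool × Bool) (s : Sym) : Sym :=
  act (true, true) (act (false, c.2) (act (c.1, false) s))

def stepi (c : Bool × Bool) (s : Sym) : Sym :=
  acti (c.1, false) (acti (false, c.2) (acti (true, true) s))

lemma acti_act : ∀ (c : Bool × Bool) (s : Sym), acti c (act c s) = s := by decide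
lemma act_acti : ∀ (c : Bool × Bool) (s : Sym), act c (acti c s) = s := by decide
lemma stepi_step (c : Bool × Bool) (s : Sym) : stepi c (step c s) = s := by
  simp only [stepi, step, acti_act]
lemma step_stepi (c : Bool × Bool) (s : Sym) : step c (stepi c s) = s := by
  simp only [stepi, step, act_acti]
lemma step_fst : ∀ (c : Bool × Bool) (s : Sym), (step c s).1 = s.1 + 1 := by decide
lemma act_zero (s : Sym) : act (false, false) s = s := rfl

/-- unflagged cells obey the command of a flagged right neighbour -/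
def lo (π : Bool × Bool → Sym → Sym) (a b : Cell) : Cell :=
  (a.1, if a.1 = false ∧ b.1 = true then π (cmd b.2) a.2 else a.2)

/-- flagged cells read the command of an unflagged right neighbour -/
def le (π : Bool × Bool → Sym → Sym) (a b : Cell) : Cell :=
  (a.1, if a.1 = true ∧ b.1 = false then π (cmd b.2) a.2 else a.2)

def ca (φ : Cell → Cell → Cell) (x : ℕ → Cell) : ℕ → Cell := fun i => φ (x i) (x (i + 1))

def F (x : ℕ → Cell) : ℕ → Cell := ca (le step) (ca (lo act) x)
def G (x : ℕ → Cell) : ℕ → Cell := ca (lo acti) (ca (le stepi) x)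
def sh (x : ℕ → Cell) : ℕ → Cell := fun i => x (i + 1)

lemma lo_lo (π π' : Bool × Bool → Sym → Sym) (h : ∀ c s, π' c (π c s) = s) (a b c : Cell) :
    lo π' (lo π a b) (lo π b c) = a := by
  obtain ⟨fa, sa⟩ := a
  obtain ⟨fb, sb⟩ := b
  cases fa <;> cases fb <;> simp [lo, h]

lemma le_le (π π' : Bool × Bool → Sym → Sym) (h : ∀ c s, π' c (π c s) = s) (a b c : Cell) :
    le π' (le π a b) (le π b c) = a := by
  obtain ⟨fa, sa⟩ := a
  obtain ⟨fb, sb⟩ := b
  cases fa <;> cases fb <;> simp [le, h]

lemma ca_lo_lo (π π' : Bool × Bool → Sym → Sym) (h : ∀ c s, π' c (π c s) = s) (x : ℕ → Cell) :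
    ca (lo π') (ca (lo π) x) = x := by
  funext i; exact lo_lo π π' h _ _ _

lemma ca_le_le (π π' : Bool × Bool → Sym → Sym) (h : ∀ c s, π' c (π c s) = s) (x : ℕ → Cell) :
    ca (le π') (ca (le π) x) = x := by
  funext i; exact le_le π π' h _ _ _

lemma G_F (x : ℕ → Cell) : G (F x) = x := by
  unfold G F
  rw [ca_le_le _ _ stepi_step, ca_lo_lo _ _ acti_act]

lemma F_G (x : ℕ → Cell) : F (G x) = x := by
  unfold G F
  rw [ca_lo_lo _ _ act_acti, ca_le_le _ _ step_stepi]

lemma F_inj : Function.Injective F := Function.LeftInverse.injective G_F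

lemma F_sh (x : ℕ → Cell) : F (sh x) = sh (F x) := rfl
lemma G_sh (x : ℕ → Cell) : G (sh x) = sh (G x) := rfl

lemma F_flag (x : ℕ → Cell) (i : ℕ) : (F x i).1 = (x i).1 := rfl
lemma G_flag (x : ℕ → Cell) (i : ℕ) : (G x i).1 = (x i).1 := rfl

/-- interleave flagged cells and unflagged cells -/
def mk (e o : ℕ → Sym) : ℕ → Cell :=
  fun i => if i % 2 = 0 then (true, e (i / 2)) else (false, o (i / 2))

lemma mk_even (e o : ℕ → Sym) (j : ℕ) : mk e o (2 * j) = (true, e j) := by
  simp [mk]

lemma mk_odd (e o : ℕ → Sym) (j : ℕ) : mk e o (2 * j + 1) = (false, o j) := by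
  have h1 : (2 * j + 1) % 2 = 1 := by omega
  have h2 : (2 * j + 1) / 2 = j := by omega
  simp [mk, h1, h2]

lemma mk_even' (e o : ℕ → Sym) (j : ℕ) : mk e o (2 * j + 1 + 1) = (true, e (j + 1)) := by
  rw [show 2 * j + 1 + 1 = 2 * (j + 1) by ring, mk_even]

lemma ca_lo_mk (π : Bool × Bool → Sym → Sym) (e o : ℕ → Sym) :
    ca (lo π) (mk e o) = mk e (fun j => π (cmd (e (j + 1))) (o j)) := by
  funext i
  obtain ⟨j, rfl | rfl⟩ := Nat.even_or_odd' i
  · simp [ca, mk_even, mk_odd, lo]
  · simp [ca, mk_even', mk_odd, lo]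

lemma ca_le_mk (π : Bool × Bool → Sym → Sym) (e o : ℕ → Sym) :
    ca (le π) (mk e o) = mk (fun j => π (cmd (o j)) (e j)) o := by
  funext i
  obtain ⟨j, rfl | rfl⟩ := Nat.even_or_odd' i
  · simp [ca, mk_even, mk_odd, le]
  · simp [ca, mk_even', mk_odd, le]

lemma F_mk (e o : ℕ → Sym) :
    F (mk e o) = mk (fun j => step (cmd (act (cmd (e (j + 1))) (o j))) (e j))
      (fun j => act (cmd (e (j + 1))) (o j)) := by
  unfold F
  rw [ca_lo_mk, ca_le_mk]

lemma F_mk' (e o e' o' : ℕ → Sym) (ho : ∀ j, act (cmd (e (j + 1))) (o j) = o' j)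
    (he : ∀ j, step (cmd (o' j)) (e j) = e' j) : F (mk e o) = mk e' o' := by
  rw [F_mk]
  congr 1
  · funext j; rw [ho, he]
  · funext j; rw [ho]

/-- buffer cell with clock `t`, buffer `c` and type `f` -/
def buf (t : Fin 4) (c : Bool × Bool) (f : Bool) : Sym := (t, c.1, c.2, f)

def eCell (a : Cell) : Sym := buf 0 (if a.1 then cmd a.2 else (false, false)) a.1

def emb (x : ℕ → Cell) : ℕ → Cell := mk (fun j => eCell (x j)) (fun j => (x j).2)

def Alt (x : ℕ → Cell) : Prop := ∀ i, (x (i + 1)).1 = !(x i).1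

lemma b1 : ∀ c, cmd (buf 0 c true) = c := by decide
lemma b2 : ∀ c, cmd (buf 0 c false) = (false, false) := by decide
lemma b3 : ∀ c, step c (buf 0 c true) = buf 1 (false, false) true := by decide
lemma b4 : ∀ c, step c (buf 0 (false, false) false) = buf 1 c false := by decide
lemma b5 : ∀ c, cmd (buf 1 c true) = (false, false) := by decide
lemma b6 : ∀ c, cmd (buf 1 c false) = (c.1, false) := by decide
lemma b7 : ∀ c' c f, step c' (buf 1 c f) = buf 2 c f := by decide
lemma b8 : ∀ c, cmd (buf 2 c true) = (false, false) := by decide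
lemma b9 : ∀ c, cmd (buf 2 c false) = (false, c.2) := by decide
lemma b10 : ∀ c' c, step c' (buf 2 c true) = buf 3 c true := by decide
lemma b11 : ∀ c, step c (buf 2 c false) = buf 3 (false, false) false := by decide
lemma b12 : ∀ c, cmd (buf 3 c true) = (false, false) := by decide
lemma b13 : ∀ c, cmd (buf 3 c false) = (true, true) := by decide
lemma b14 : ∀ c, step c (buf 3 (false, false) true) = buf 0 c true := by decide
lemma b15 : ∀ c' c, step c' (buf 3 c false) = buf 0 c false := by decide

theorem simulate (x : ℕ → Cell) (hx : Alt x) : F^[4] (emb x) = emb (F x) := by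
  let f : ℕ → Bool := fun j => (x j).1
  let o0 : ℕ → Sym := fun j => (x j).2
  let o1 : ℕ → Sym := fun j => if f j then o0 j else act (cmd (o0 (j + 1))) (o0 j)
  let o2 : ℕ → Sym := fun j => if f j then act ((cmd (o1 (j + 1))).1, false) (o1 j) else o1 j
  let o3 : ℕ → Sym := fun j => if f j then act (false, (cmd (o1 (j + 1))).2) (o2 j) else o1 j
  let o4 : ℕ → Sym := fun j => if f j then act (true, true) (o3 j) else o1 j
  let e0 : ℕ → Sym := fun j => buf 0 (if f j then cmd (o0 j) else (false, false)) (f j)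
  let e1 : ℕ → Sym := fun j => buf 1 (if f j then (false, false) else cmd (o1 j)) (f j)
  let e2 : ℕ → Sym := fun j => buf 2 (if f j then (false, false) else cmd (o1 j)) (f j)
  let e3 : ℕ → Sym := fun j => buf 3 (false, false) (f j)
  let e4 : ℕ → Sym := fun j => buf 0 (if f j then cmd (o4 j) else (false, false)) (f j)
  have hf : ∀ j, f (j + 1) = !(f j) := hx
  have s0 : emb x = mk e0 o0 := rfl
  have s1 : F (mk e0 o0) = mk e1 o1 := by
    apply F_mk'
    · intro j
      have := hf j
      cases h : f j <;> simp [h] at this <;> simp [e0, o1, h, this, b1, b2, act_zero]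
    · intro j
      cases h : f j <;> simp [e0, e1, o1, h, b3, b4]
  have s2 : F (mk e1 o1) = mk e2 o2 := by
    apply F_mk'
    · intro j
      have := hf j
      cases h : f j <;> simp [h] at this <;> simp [e1, o2, h, this, b5, b6, act_zero]
    · intro j
      simp [e1, e2, b7]
  have s3 : F (mk e2 o2) = mk e3 o3 := by
    apply F_mk'
    · intro j
      have := hf j
      cases h : f j <;> simp [h] at this <;> simp [e2, o3, o2, h, this, b8, b9, act_zero]
    · intro j
      cases h : f j <;> simp [e2, e3, o3, h, b10, b11]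
  have s4 : F (mk e3 o3) = mk e4 o4 := by
    apply F_mk'
    · intro j
      have := hf j
      cases h : f j <;> simp [h] at this <;> simp [e3, o4, o3, h, this, b12, b13, act_zero]
    · intro j
      cases h : f j <;> simp [e3, e4, h, b14, b15]
  have s5 : ∀ j, F x j = (f j, o4 j) := by
    intro j
    have h1 := hf j
    have h2 := hf (j + 1)
    cases h : f j <;> simp [h] at h1 <;> simp [h1] at h2 <;>
      simp only [f] at h h1 h2 <;>
      simp [F, ca, le, lo, o4, o3, o2, o1, o0, f, h, h1, h2, step]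
  have s6 : emb (F x) = mk e4 o4 := by
    unfold emb
    congr 1
    · funext j; rw [s5]; rfl
    · funext j; rw [s5]
  rw [s6, s0]
  show F (F (F (F (mk e0 o0)))) = _
  rw [s1, s2, s3, s4]

end Pool.Agent.MP_88e1ca_an
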