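import Pool.Agent.MP_88e1ca_an.Rule

/-!
The subshift of configurations with an infinite simulation hierarchy.
-/

set_option autoImplicit false

namespace Pool.Agent.MP_88e1ca_an

def V : ℕ → Set (ℕ → Cell)
  | 0 => {x | Alt x}
  | k + 1 => {x | ∃ t < 4, ∃ p < 2, ∃ x' ∈ V k, x = sh^[p] (F^[t] (emb x'))}

lemma mem_V_succ (k : ℕ) (x : ℕ → Cell) :
    x ∈ V (k + 1) ↔ ∃ t < 4, ∃ p < 2, ∃ x' ∈ V k, x = sh^[p] (F^[t] (emb x')) := Iff.rfl

lemma comm_F_sh : Function.Commute F sh := F_sh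
lemma comm_G_sh : Function.Commute G sh := G_sh

lemma F_iter_sh_iter (n p : ℕ) (x : ℕ → Cell) : F^[n] (sh^[p] x) = sh^[p] (F^[n] x) :=
  (comm_F_sh.iterate_iterate n p) x

lemma F_sh_iter (p : ℕ) (x : ℕ → Cell) : F (sh^[p] x) = sh^[p] (F x) := F_iter_sh_iter 1 p x

lemma G_sh_iter (p : ℕ) (x : ℕ → Cell) : G (sh^[p] x) = sh^[p] (G x) :=
  (comm_G_sh.iterate_right p) x

lemma sh_iter_apply (p : ℕ) (x : ℕ → Cell) (i : ℕ) : sh^[p] x i = x (i + p) := by
  induction p generalizing x i with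
  | zero => rfl
  | succ p ih => rw [Function.iterate_succ_apply, ih]; rfl

lemma F_iter_flag (n : ℕ) (x : ℕ → Cell) (i : ℕ) : (F^[n] x i).1 = (x i).1 := by
  induction n with
  | zero => rfl
  | succ n ih => rw [Function.iterate_succ_apply', F_flag, ih]

lemma Alt.F {x : ℕ → Cell} (h : Alt x) : Alt (F x) := fun i => h i
lemma Alt.G {x : ℕ → Cell} (h : Alt x) : Alt (G x) := fun i => h i
lemma Alt.sh {x : ℕ → Cell} (h : Alt x) : Alt (sh x) := fun i => h (i + 1)
lemma Alt.F_iter {x : ℕ → Cell} (h : Alt x) (n : ℕ) : Alt (Pool.Agent.MP_88e1ca_an.F^[n] x) := by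
  intro i; rw [F_iter_flag, F_iter_flag]; exact h i
lemma Alt.sh_iter {x : ℕ → Cell} (h : Alt x) (n : ℕ) : Alt (Pool.Agent.MP_88e1ca_an.sh^[n] x) := by
  intro i; rw [sh_iter_apply, sh_iter_apply, show i + 1 + n = i + n + 1 by ring]; exact h _

lemma alt_mk (e o : ℕ → Sym) : Alt (mk e o) := by
  intro i
  obtain ⟨j, rfl | rfl⟩ := Nat.even_or_odd' i
  · simp [mk_even, mk_odd]
  · simp [mk_even', mk_odd]

lemma alt_emb (x : ℕ → Cell) : Alt (emb x) := alt_mk _ _

lemma V_alt (k : ℕ) : ∀ x ∈ V k, Alt x := by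
  cases k with
  | zero => exact fun x h => h
  | succ k =>
    rintro x ⟨t, -, p, -, x', -, rfl⟩
    exact ((alt_emb x').F_iter t).sh_iter p

lemma V_succ_subset (k : ℕ) : V (k + 1) ⊆ V k := by
  induction k with
  | zero => exact fun x h => V_alt _ x h
  | succ k ih =>
    rintro x ⟨t, ht, p, hp, x', hx', rfl⟩
    exact ⟨t, ht, p, hp, x', ih hx', rfl⟩

lemma simulate_iter (x : ℕ → Cell) (hx : Alt x) (n : ℕ) : F^[4 * n] (emb x) = emb (F^[n] x) := by
  induction n with
  | zero => rfl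
  | succ n ih =>
    rw [show 4 * (n + 1) = 4 + 4 * n by ring, Function.iterate_add_apply, ih,
      simulate _ (hx.F_iter n), Function.iterate_succ_apply']

lemma F_mem_V (k : ℕ) : ∀ x ∈ V k, F x ∈ V k := by
  induction k with
  | zero => exact fun x h => Alt.F h
  | succ k ih =>
    rintro x ⟨t, ht, p, hp, x', hx', rfl⟩
    rw [F_sh_iter, ← Function.iterate_succ_apply' F]
    by_cases h : t + 1 < 4
    · exact ⟨t + 1, h, p, hp, x', hx', rfl⟩
    · have : t = 3 := by omega
      subst this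
      refine ⟨0, by norm_num, p, hp, F x', ih _ hx', ?_⟩
      rw [simulate _ (V_alt _ _ hx')]; rfl

lemma G_mem_V (k : ℕ) : ∀ x ∈ V k, G x ∈ V k := by
  induction k with
  | zero => exact fun x h => Alt.G h
  | succ k ih =>
    rintro x ⟨t, ht, p, hp, x', hx', rfl⟩
    rw [G_sh_iter]
    cases t with
    | succ t =>
      rw [Function.iterate_succ_apply', G_F]
      exact ⟨t, by omega, p, hp, x', hx', rfl⟩
    | zero =>
      refine ⟨3, by norm_num, p, hp, G x', ih _ hx', ?_⟩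
      have h := simulate (G x') (V_alt _ _ hx').G
      rw [F_G] at h
      rw [Function.iterate_zero_apply, ← h, Function.iterate_succ_apply', G_F]

lemma sh_sh_emb (x : ℕ → Cell) : sh (sh (emb x)) = emb (sh x) := by
  funext i
  obtain ⟨j, rfl | rfl⟩ := Nat.even_or_odd' i
  · show emb x (2 * j + 1 + 1) = _
    unfold emb
    rw [mk_even', mk_even]; rfl
  · show emb x (2 * j + 1 + 1 + 1) = _
    unfold emb
    rw [show 2 * j + 1 + 1 + 1 = 2 * (j + 1) + 1 by ring, mk_odd, mk_odd]; rfl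

lemma sh_mem_V (k : ℕ) : ∀ x ∈ V k, sh x ∈ V k := by
  induction k with
  | zero => exact fun x h => Alt.sh h
  | succ k ih =>
    rintro x ⟨t, ht, p, hp, x', hx', rfl⟩
    rw [← Function.iterate_succ_apply' sh]
    by_cases h : p + 1 < 2
    · exact ⟨t, ht, p + 1, h, x', hx', rfl⟩
    · have : p = 1 := by omega
      subst this
      refine ⟨t, ht, 0, by norm_num, sh x', ih _ hx', ?_⟩
      rw [← F_iter_sh_iter, ← sh_sh_emb]; rfl

lemma sh_surj_V (k : ℕ) : ∀ x ∈ V k, ∃ y ∈ V k, sh y = x := by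
  induction k with
  | zero =>
    intro x hx
    refine ⟨fun i => Nat.casesOn i (!(x 0).1, (x 0).2) x, ?_, rfl⟩
    intro i
    cases i with
    | zero => simp
    | succ i => exact hx i
  | succ k ih =>
    rintro x ⟨t, ht, p, hp, x', hx', rfl⟩
    cases p with
    | succ p =>
      exact ⟨sh^[p] (F^[t] (emb x')), ⟨t, ht, p, by omega, x', hx', rfl⟩,
        (Function.iterate_succ_apply' _ _ _).symm⟩
    | zero =>
      obtain ⟨y', hy', rfl⟩ := ih x' hx'
      refine ⟨sh^[1] (F^[t] (emb y')), ⟨t, ht, 1, by norm_num, y', hy', rfl⟩, ?_⟩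
      rw [← sh_sh_emb, Function.iterate_zero_apply]
      exact (F_iter_sh_iter t 2 (emb y')).symm

/-! ### topology -/

lemma cont_ca (φ : Cell → Cell → Cell) : Continuous (ca φ) := by
  refine continuous_pi fun i => ?_
  have h : Continuous (fun q : Cell × Cell => φ q.1 q.2) := continuous_of_discreteTopology
  have h' : Continuous (fun x : ℕ → Cell => (x i, x (i + 1))) :=
    (continuous_apply i).prodMk (continuous_apply (i + 1))
  exact h.comp h'

lemma cont_F : Continuous F := (cont_ca _).comp (cont_ca _)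
lemma cont_G : Continuous G := (cont_ca _).comp (cont_ca _)
lemma cont_sh : Continuous sh := continuous_pi fun i => continuous_apply (i + 1)

lemma cont_emb : Continuous emb := by
  refine continuous_pi fun i => ?_
  have h : Continuous (fun q : Cell =>
      (if i % 2 = 0 then (true, eCell q) else (false, q.2) : Cell)) := continuous_of_discreteTopology
  exact h.comp (continuous_apply (i / 2))

lemma isCompact_V (k : ℕ) : IsCompact (V k) := by
  induction k with
  | zero =>
    apply IsClosed.isCompact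
    have : V 0 = ⋂ i, {x : ℕ → Cell | (x (i + 1)).1 = !(x i).1} := by
      ext x; simp [V, Alt]
    rw [this]
    refine isClosed_iInter fun i => isClosed_eq ?_ ?_
    · exact continuous_fst.comp (continuous_apply _)
    · have h : Continuous (fun q : Cell => !q.1) := continuous_of_discreteTopology
      exact h.comp (continuous_apply _)
  | succ k ih =>
    have : V (k + 1) = ⋃ t ∈ Finset.range 4, ⋃ p ∈ Finset.range 2,
        (fun x' => sh^[p] (F^[t] (emb x'))) '' V k := by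
      ext x
      simp only [mem_V_succ, Set.mem_iUnion, Finset.mem_range, Set.mem_image, exists_prop]
      constructor
      · rintro ⟨t, ht, p, hp, x', hx', rfl⟩; exact ⟨t, ht, p, hp, x', hx', rfl⟩
      · rintro ⟨t, ht, p, hp, x', hx', rfl⟩; exact ⟨t, ht, p, hp, x', hx', rfl⟩
    rw [this]
    refine Finset.isCompact_biUnion _ fun t _ => Finset.isCompact_biUnion _ fun p _ => ?_
    exact ih.image ((cont_sh.iterate p).comp ((cont_F.iterate t).comp cont_emb))

lemma V_nonempty (k : ℕ) : (V k).Nonempty := by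
  induction k with
  | zero => exact ⟨_, alt_emb (fun _ => default)⟩
  | succ k ih =>
    obtain ⟨x, hx⟩ := ih
    exact ⟨emb x, 0, by norm_num, 0, by norm_num, x, hx, rfl⟩

/-- the one-sided subshift -/
def X : Set (ℕ → Cell) := ⋂ k, V k

lemma isClosed_X : IsClosed X := isClosed_iInter fun k => (isCompact_V k).isClosed

lemma X_nonempty : X.Nonempty :=
  IsCompact.nonempty_iInter_of_sequence_nonempty_isCompact_isClosed V V_succ_subset V_nonempty
    (isCompact_V 0) (fun k => (isCompact_V k).isClosed)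

lemma F_mem_X {x : ℕ → Cell} (h : x ∈ X) : F x ∈ X :=
  Set.mem_iInter.2 fun k => F_mem_V k x (Set.mem_iInter.1 h k)
lemma G_mem_X {x : ℕ → Cell} (h : x ∈ X) : G x ∈ X :=
  Set.mem_iInter.2 fun k => G_mem_V k x (Set.mem_iInter.1 h k)
lemma sh_mem_X {x : ℕ → Cell} (h : x ∈ X) : sh x ∈ X :=
  Set.mem_iInter.2 fun k => sh_mem_V k x (Set.mem_iInter.1 h k)

lemma sh_surj_X {x : ℕ → Cell} (h : x ∈ X) : ∃ y ∈ X, sh y = x := by
  have hc : ∀ k, IsClosed (V k ∩ {y | sh y = x}) := fun k =>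
    (isCompact_V k).isClosed.inter (isClosed_eq cont_sh continuous_const)
  obtain ⟨y, hy⟩ := IsCompact.nonempty_iInter_of_sequence_nonempty_isCompact_isClosed
    (fun k => V k ∩ {y | sh y = x})
    (fun k => Set.inter_subset_inter_left _ (V_succ_subset k))
    (fun k => by
      obtain ⟨y, hy, e⟩ := sh_surj_V k x (Set.mem_iInter.1 h k)
      exact ⟨y, hy, e⟩)
    (hc 0).isCompact hc
  rw [Set.mem_iInter] at hy
  exact ⟨y, Set.mem_iInter.2 fun k => (hy k).1, (hy 0).2⟩

/-! ### the clock -/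

lemma F_iter_mk (t : ℕ) (e o : ℕ → Sym) :
    ∃ e' o', F^[t] (mk e o) = mk e' o' ∧ ∀ j, (e' j).1.val = ((e j).1.val + t) % 4 := by
  induction t with
  | zero => exact ⟨e, o, rfl, fun j => by have := (e j).1.isLt; omega⟩
  | succ t ih =>
    obtain ⟨e', o', h, h'⟩ := ih
    refine ⟨_, _, by rw [Function.iterate_succ_apply', h, F_mk], fun j => ?_⟩
    simp only [step_fst, Fin.val_add, h']
    show (_ + 1) % 4 = _
    omega

lemma clock (t : ℕ) (x : ℕ → Cell) (j : ℕ) :
    (F^[t] (emb x) (2 * j)).1 = true ∧ (F^[t] (emb x) (2 * j)).2.1.val = t % 4 ∧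
      (F^[t] (emb x) (2 * j + 1)).1 = false := by
  obtain ⟨e', o', h, h'⟩ := F_iter_mk t (fun j => eCell (x j)) (fun j => (x j).2)
  unfold emb
  rw [h, mk_even, mk_odd]
  refine ⟨rfl, ?_, rfl⟩
  show (e' j).1.val = _
  rw [h']
  simp [eCell, buf]

def Agree (m : ℕ) (x y : ℕ → Cell) : Prop := ∀ i < m, x i = y i

lemma Agree.mono {m m' : ℕ} {x y : ℕ → Cell} (h : Agree m x y) (hm : m' ≤ m) : Agree m' x y :=
  fun i hi => h i (by omega)

lemma Agree.ca {m : ℕ} {x y : ℕ → Cell} (φ : Cell → Cell → Cell) (h : Agree (m + 1) x y) :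
    Agree m (ca φ x) (ca φ y) := by
  intro i hi
  show φ _ _ = φ _ _
  rw [h i (by omega), h (i + 1) (by omega)]

lemma Agree.F {m : ℕ} {x y : ℕ → Cell} (h : Agree (m + 2) x y) : Agree m (F x) (F y) :=
  (h.ca _).ca _

lemma Agree.G {m : ℕ} {x y : ℕ → Cell} (h : Agree (m + 2) x y) : Agree m (G x) (G y) :=
  (h.ca _).ca _

lemma Agree.F_iter (n : ℕ) {m : ℕ} {x y : ℕ → Cell} (h : Agree (m + 2 * n) x y) :
    Agree m (Pool.Agent.MP_88e1ca_an.F^[n] x) (Pool.Agent.MP_88e1ca_an.F^[n] y) := by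
  induction n generalizing m with
  | zero => exact h
  | succ n ih =>
    rw [Function.iterate_succ_apply', Function.iterate_succ_apply']
    exact Agree.F (ih (h.mono (by omega)))

lemma Agree.F_iter_inv (n : ℕ) {m : ℕ} {x y : ℕ → Cell}
    (h : Agree (m + 2 * n) (Pool.Agent.MP_88e1ca_an.F^[n] x) (Pool.Agent.MP_88e1ca_an.F^[n] y)) :
    Agree m x y := by
  induction n generalizing m with
  | zero => exact h
  | succ n ih =>
    rw [Function.iterate_succ_apply', Function.iterate_succ_apply'] at h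
    have h' := Agree.G (m := m + 2 * n) (h.mono (by omega))
    rw [G_F, G_F] at h'
    exact ih h'

lemma Agree.sh_iter (p : ℕ) {m : ℕ} {x y : ℕ → Cell} (h : Agree (m + p) x y) :
    Agree m (sh^[p] x) (sh^[p] y) := by
  intro i hi
  rw [sh_iter_apply, sh_iter_apply]
  exact h _ (by omega)

lemma Agree.emb {m : ℕ} {x y : ℕ → Cell} (h : Agree m x y) : Agree (2 * m) (emb x) (emb y) := by
  intro i hi
  unfold Pool.Agent.MP_88e1ca_an.emb mk
  simp only [h (i / 2) (by omega)]

lemma Agree.unemb {m p : ℕ} (hp : p < 2) {x y : ℕ → Cell} (hx : Alt x) (hy : Alt y)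
    (h : Agree (2 * m + 1) (sh^[p] (Pool.Agent.MP_88e1ca_an.emb x))
      (sh^[p] (Pool.Agent.MP_88e1ca_an.emb y))) : Agree m x y := by
  intro j hj
  have h1 := h (2 * j + 1 - p) (by omega)
  have h2 := h (2 * (j + 1) - p) (by omega)
  rw [sh_iter_apply, sh_iter_apply, show 2 * j + 1 - p + p = 2 * j + 1 by omega] at h1
  rw [sh_iter_apply, sh_iter_apply, show 2 * (j + 1) - p + p = 2 * (j + 1) by omega] at h2
  unfold Pool.Agent.MP_88e1ca_an.emb at h1 h2
  rw [mk_odd, mk_odd] at h1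
  rw [mk_even, mk_even] at h2
  have h3 : (x (j + 1)).1 = (y (j + 1)).1 := congrArg (fun c : Cell => c.2.2.2.2) h2
  rw [hx j, hy j] at h3
  exact Prod.ext (Bool.not_inj h3) (Prod.ext_iff.1 h1).2

lemma phase_eq {t t' p p' : ℕ} (ht : t < 4) (ht' : t' < 4) (hp : p < 2) (hp' : p' < 2)
    {x y : ℕ → Cell} (h : Agree 2 (sh^[p] (F^[t] (emb x))) (sh^[p'] (F^[t'] (emb y)))) :
    t = t' ∧ p = p' := by
  have h0 := h 0 (by norm_num)
  have h1 := h 1 (by norm_num)
  rw [sh_iter_apply, sh_iter_apply] at h0 h1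
  obtain ⟨a0, a1, a2⟩ := clock t x 0
  obtain ⟨a3, a4, -⟩ := clock t x 1
  obtain ⟨c0, c1, c2⟩ := clock t' y 0
  obtain ⟨c3, c4, -⟩ := clock t' y 1
  have key : t % 4 = t' % 4 → t = t' := by
    intro e
    omega
  interval_cases p <;> interval_cases p'
  · refine ⟨key ?_, rfl⟩
    rw [← a1, ← c1]; exact congrArg (fun c : Cell => c.2.1.val) h0
  · exfalso
    have := congrArg Prod.fst h0
    simp only [mul_zero, zero_add, add_zero] at a0 c2 this
    rw [a0, c2] at this; exact Bool.noConfusion this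
  · exfalso
    have := congrArg Prod.fst h0
    simp only [mul_zero, zero_add, add_zero] at a2 c0 this
    rw [a2, c0] at this; exact Bool.noConfusion this
  · refine ⟨key ?_, rfl⟩
    rw [← a4, ← c4]; exact congrArg (fun c : Cell => c.2.1.val) h1

lemma F_iter_hier (n t p : ℕ) (x : ℕ → Cell) (hx : Alt x) :
    F^[n] (sh^[p] (F^[t] (emb x))) =
      sh^[p] (F^[(n + t) % 4] (emb (F^[(n + t) / 4] x))) := by
  rw [F_iter_sh_iter, ← Function.iterate_add_apply, ← simulate_iter _ hx,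
    ← Function.iterate_add_apply, Nat.mod_add_div]

theorem radius (k : ℕ) : ∀ x ∈ V k, ∀ y ∈ V k, ∀ m L : ℕ, m + 18 * 2 ^ k ≤ L + 16 →
    Agree L x y → ∀ n ≤ 4 ^ k, Agree m (F^[n] x) (F^[n] y) := by
  induction k with
  | zero =>
    intro x _ y _ m L hL h n hn
    exact Agree.F_iter n (h.mono (by omega))
  | succ k ih =>
    rintro x ⟨t, ht, p, hp, x', hx', rfl⟩ y ⟨t', ht', p', hp', y', hy', rfl⟩ m L hL h n hn
    have hk : 1 ≤ 2 ^ k := Nat.one_le_two_pow
    rw [pow_succ] at hL hn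
    obtain ⟨rfl, rfl⟩ := phase_eq ht ht' hp hp' (h.mono (by omega))
    have ax := V_alt _ _ hx'
    have ay := V_alt _ _ hy'
    rw [← F_iter_sh_iter, ← F_iter_sh_iter] at h
    have h1 : Agree (2 * ((L - 7) / 2) + 1) (sh^[p] (emb x')) (sh^[p] (emb y')) :=
      Agree.F_iter_inv t (h.mono (by omega))
    have h2 := Agree.unemb hp ax ay h1
    have h3 := ih x' hx' y' hy' ((m + 8) / 2) ((L - 7) / 2) (by omega) h2 ((n + t) / 4) (by omega)
    rw [F_iter_hier _ _ _ _ ax, F_iter_hier _ _ _ _ ay]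
    apply Agree.sh_iter
    apply Agree.F_iter
    exact h3.emb.mono (by omega)

theorem order (k : ℕ) : ∀ x ∈ V k, ∀ n : ℕ, F^[n] x = x → 4 ^ k ∣ n := by
  induction k with
  | zero => intro x _ n _; simp
  | succ k ih =>
    rintro x ⟨t, ht, p, hp, x', hx', rfl⟩ n h
    have ax := V_alt _ _ hx'
    rw [F_iter_hier _ _ _ _ ax] at h
    have h4 : (n + t) % 4 < 4 := Nat.mod_lt _ (by norm_num)
    obtain ⟨e, -⟩ := phase_eq h4 ht hp hp (x := F^[(n + t) / 4] x') (y := x')
      (fun i _ => congrFun h i)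
    rw [e, ← F_iter_sh_iter, ← F_iter_sh_iter] at h
    have h' := (F_inj.iterate t) h
    have h'' : F^[(n + t) / 4] x' = x' := by
      funext j
      exact Agree.unemb (m := j + 1) hp (ax.F_iter _) ax (fun i _ => congrFun h' i) j (by omega)
    obtain ⟨c, hc⟩ := ih x' hx' _ h''
    refine ⟨c, ?_⟩
    rw [pow_succ]
    have : n = 4 * ((n + t) / 4) := by omega
    rw [this, hc]; ring

theorem aperiodic {x : ℕ → Cell} (hx : x ∈ X) {n : ℕ} (h : F^[n] x = x) : n = 0 := by
  by_contra hn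
  have h1 := Nat.le_of_dvd (Nat.pos_of_ne_zero hn) (order n x (Set.mem_iInter.1 hx n) n h)
  have h2 : n < 4 ^ n := Nat.lt_pow_self (by norm_num)
  omega

/-- The radius of the `n`-th iterate is at most `36 * sqrt n`. -/
theorem radius_sq (n : ℕ) (hn : 1 ≤ n) : ∃ r : ℕ, r ^ 2 ≤ 1296 * n ∧
    ∀ x ∈ X, ∀ y ∈ X, (∀ i ≤ r, x i = y i) → F^[n] x 0 = F^[n] y 0 := by
  refine ⟨18 * 2 ^ (Nat.clog 4 n), ?_, ?_⟩
  · rcases Nat.eq_zero_or_pos (Nat.clog 4 n) with h | h
    · rw [h]; omega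
    · have h1 : 1 < n := by
        by_contra h1
        have : n = 1 := by omega
        subst this
        simp at h
      have h2 := Nat.pow_pred_clog_lt_self (b := 4) (by norm_num) h1
      obtain ⟨c, hc⟩ : ∃ c, Nat.clog 4 n = c + 1 := ⟨_, (Nat.succ_pred_eq_of_pos h).symm⟩
      rw [hc] at h2 ⊢
      simp only [Nat.pred_succ] at h2
      have h3 : (18 * 2 ^ (c + 1)) ^ 2 = 1296 * 4 ^ c := by
        rw [show (4 : ℕ) = 2 ^ 2 by norm_num, ← pow_mul]; ring
      omega
  · intro x hx y hy h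
    refine radius (Nat.clog 4 n) x (Set.mem_iInter.1 hx _) y (Set.mem_iInter.1 hy _) 1
      (18 * 2 ^ (Nat.clog 4 n) + 1) (by omega) (fun i hi => h i (by omega)) n
      (Nat.le_pow_clog (by norm_num) n) 0 (by norm_num)

lemma F_iter_mem_X (n : ℕ) {x : ℕ → Cell} (h : x ∈ X) : F^[n] x ∈ X := by
  induction n with
  | zero => exact h
  | succ n ih => rw [Function.iterate_succ_apply']; exact F_mem_X ih

lemma sh_iter_mem_X (n : ℕ) {x : ℕ → Cell} (h : x ∈ X) : sh^[n] x ∈ X := by
  induction n with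
  | zero => exact h
  | succ n ih => rw [Function.iterate_succ_apply']; exact sh_mem_X ih

theorem unbounded (R : ℕ) : ∃ n : ℕ, ∃ x ∈ X, ∃ y ∈ X,
    (∀ i ≤ R, x i = y i) ∧ F^[n] x 0 ≠ F^[n] y 0 := by
  by_contra hcon
  push Not at hcon
  let Φ : ℕ → Set ((Fin (R + 1) → Cell) × Cell) := fun n =>
    {q | ∃ x ∈ X, (fun i : Fin (R + 1) => x i) = q.1 ∧ F^[n] x 0 = q.2}
  obtain ⟨a, b, hab, e⟩ := Finite.exists_ne_map_eq_of_infinite Φ
  have key : ∀ a b, Φ a = Φ b → ∀ x ∈ X, F^[a] x = F^[b] x := by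
    intro a b e
    have k0 : ∀ x ∈ X, F^[a] x 0 = F^[b] x 0 := by
      intro x hx
      have : ((fun i : Fin (R + 1) => x i), F^[a] x 0) ∈ Φ b := by
        rw [← e]; exact ⟨x, hx, rfl, rfl⟩
      obtain ⟨y, hy, h1, h2⟩ := this
      simp only at h1 h2
      rw [← h2]
      exact hcon b y hy x hx fun i hi => congrFun h1 ⟨i, by omega⟩
    intro x hx
    funext i
    have := k0 _ (sh_iter_mem_X i hx)
    rwa [F_iter_sh_iter, F_iter_sh_iter, sh_iter_apply, sh_iter_apply, zero_add] at this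
  obtain ⟨x, hx⟩ := X_nonempty
  have fin : ∀ a b, a < b → Φ a = Φ b → False := by
    intro a b hlt e
    have h := key a b e x hx
    obtain ⟨d, rfl⟩ := Nat.exists_eq_add_of_lt hlt
    rw [add_assoc, Function.iterate_add_apply] at h
    have := aperiodic hx ((F_inj.iterate a) h).symm
    omega
  rcases lt_or_gt_of_ne hab with h | h
  · exact fin a b h e
  · exact fin b a h e.symm

end Pool.Agent.MP_88e1ca_an
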