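import Pool.Agent.MP_88e1ca_an.Shift

/-!
Transport to the alphabet `Fin 64`, one-sided version.
-/

set_option autoImplicit false

namespace Pool.Agent.MP_88e1ca_an

noncomputable def code : Cell ≃ Fin 64 := Fintype.equivFinOfCardEq (by simp [Cell, Sym])

noncomputable def dec (x : ℕ → Fin 64) : ℕ → Cell := fun i => code.symm (x i)
noncomputable def enc (x : ℕ → Cell) : ℕ → Fin 64 := fun i => code (x i)

lemma dec_enc (x : ℕ → Cell) : dec (enc x) = x := by funext i; simp [dec, enc]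
lemma enc_dec (x : ℕ → Fin 64) : enc (dec x) = x := by funext i; simp [dec, enc]

def X' : Set (ℕ → Fin 64) := {x | dec x ∈ X}
noncomputable def F' (x : ℕ → Fin 64) : ℕ → Fin 64 := enc (F (dec x))
noncomputable def G' (x : ℕ → Fin 64) : ℕ → Fin 64 := enc (G (dec x))

lemma F'_iter (n : ℕ) (x : ℕ → Fin 64) : F'^[n] x = enc (F^[n] (dec x)) := by
  induction n with
  | zero => exact (enc_dec x).symm
  | succ n ih => rw [Function.iterate_succ_apply', Function.iterate_succ_apply', ih, F', dec_enc]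

lemma sublinear_of_sq {P : ℕ → ℕ → Prop} (h : ∀ n, 1 ≤ n → ∃ r : ℕ, r ^ 2 ≤ 1296 * n ∧ P n r)
    (ε : ℝ) (hε : 0 < ε) : ∃ N : ℕ, ∀ n ≥ N, ∃ r : ℕ, (r : ℝ) ≤ ε * n ∧ P n r := by
  obtain ⟨N, hN⟩ := exists_nat_ge (1296 / ε ^ 2)
  refine ⟨N + 1, fun n hn => ?_⟩
  obtain ⟨r, hr, hP⟩ := h n (by omega)
  refine ⟨r, ?_, hP⟩
  have h1 : (N : ℝ) ≤ n := by exact_mod_cast (by omega : N ≤ n)
  have h2 : (1296 : ℝ) ≤ ε ^ 2 * n := by
    rw [div_le_iff₀ (by positivity)] at hN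
    nlinarith [sq_nonneg ε]
  have h3 : (r : ℝ) ^ 2 ≤ 1296 * n := by exact_mod_cast hr
  have hn0 : (0 : ℝ) ≤ n := Nat.cast_nonneg n
  apply abs_le_of_sq_le_sq' _ (by positivity) |>.2
  nlinarith

theorem one_sided :
    ∃ (k : ℕ) (X : Set (ℕ → Fin k)) (f : (ℕ → Fin k) → (ℕ → Fin k)),
      (∀ x : ℕ → Fin k, (∀ m : ℕ, ∃ y ∈ X, ∀ i < m, y i = x i) → x ∈ X) ∧
      (∀ x ∈ X, (fun i => x (i + 1)) ∈ X) ∧
      Set.MapsTo f X X ∧ Set.InjOn f X ∧ Set.SurjOn f X X ∧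
      (∀ x ∈ X, f (fun i => x (i + 1)) = fun i => f x (i + 1)) ∧
      (∃ r : ℕ, ∀ x ∈ X, ∀ y ∈ X, (∀ i ≤ r, x i = y i) → f x 0 = f y 0) ∧
      (∀ R : ℕ, ∃ n : ℕ, ∃ x ∈ X, ∃ y ∈ X,
        (∀ i ≤ R, x i = y i) ∧ f^[n] x 0 ≠ f^[n] y 0) ∧
      (∀ ε : ℝ, 0 < ε → ∃ N : ℕ, ∀ n ≥ N, ∃ r : ℕ, (r : ℝ) ≤ ε * n ∧
        ∀ x ∈ X, ∀ y ∈ X, (∀ i ≤ r, x i = y i) → f^[n] x 0 = f^[n] y 0) := by
  have rad : ∀ n, 1 ≤ n → ∃ r : ℕ, r ^ 2 ≤ 1296 * n ∧
      ∀ x ∈ X', ∀ y ∈ X', (∀ i ≤ r, x i = y i) → F'^[n] x 0 = F'^[n] y 0 := by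
    intro n hn
    obtain ⟨r, hr, h⟩ := radius_sq n hn
    refine ⟨r, hr, fun x hx y hy hxy => ?_⟩
    rw [F'_iter, F'_iter]
    exact congrArg code (h _ hx _ hy fun i hi => congrArg code.symm (hxy i hi))
  refine ⟨64, X', F', ?_, ?_, ?_, ?_, ?_, ?_, ?_, ?_, ?_⟩
  · intro x hx
    choose y hy hxy using hx
    show dec x ∈ X
    refine isClosed_X.mem_of_tendsto (f := fun m => dec (y m)) (b := Filter.atTop) ?_
      (Filter.Eventually.of_forall hy)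
    rw [tendsto_pi_nhds]
    intro i
    refine tendsto_const_nhds.congr' ?_
    filter_upwards [Filter.eventually_gt_atTop i] with m hm
    exact (congrArg code.symm (hxy m i hm)).symm
  · intro x hx
    exact sh_mem_X hx
  · intro x hx
    show dec (enc _) ∈ X
    rw [dec_enc]; exact F_mem_X hx
  · intro x _ y _ h
    have h1 := congrArg dec h
    rw [F', F', dec_enc, dec_enc] at h1
    rw [← enc_dec x, F_inj h1, enc_dec]
  · intro x hx
    refine ⟨G' x, ?_, ?_⟩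
    · show dec (enc _) ∈ X
      rw [dec_enc]; exact G_mem_X hx
    · rw [F', G', dec_enc, F_G, enc_dec]
  · intro x _
    rfl
  · obtain ⟨r, -, h⟩ := rad 1 le_rfl
    exact ⟨r, h⟩
  · intro R
    obtain ⟨n, x, hx, y, hy, hxy, hne⟩ := unbounded R
    refine ⟨n, enc x, ?_, enc y, ?_, fun i hi => congrArg code (hxy i hi), ?_⟩
    · show dec (enc _) ∈ X
      rwa [dec_enc]
    · show dec (enc _) ∈ X
      rwa [dec_enc]
    · rw [F'_iter, F'_iter, dec_enc, dec_enc]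
      exact fun h => hne (code.injective h)
  · exact sublinear_of_sq rad

end Pool.Agent.MP_88e1ca_an
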