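import Pool.Agent.MP_88e1ca_an.Transport

/-!
The two-sided version: natural extension of the one-sided system.
-/

set_option autoImplicit false

namespace Pool.Agent.MP_88e1ca_an

noncomputable def tail (i : ℤ) (x : ℤ → Fin 64) : ℕ → Cell := fun j => code.symm (x (i + j))

def X2 : Set (ℤ → Fin 64) := {x | ∀ i, tail i x ∈ X}

noncomputable def ext2 (H : (ℕ → Cell) → (ℕ → Cell)) (x : ℤ → Fin 64) : ℤ → Fin 64 :=
  fun i => code (H (tail i x) 0)

lemma sh_iter_tail (p : ℕ) (i : ℤ) (x : ℤ → Fin 64) : sh^[p] (tail i x) = tail (i + p) x := by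
  funext j
  rw [sh_iter_apply]
  simp only [tail]
  congr 2
  push_cast
  ring

lemma tail_ext2 {H : (ℕ → Cell) → (ℕ → Cell)} (hH : Function.Commute H sh) (i : ℤ)
    (x : ℤ → Fin 64) : tail i (ext2 H x) = H (tail i x) := by
  funext j
  simp only [tail, ext2, Equiv.symm_apply_apply]
  have := congrFun ((hH.iterate_right j) (tail i x)) 0
  rw [sh_iter_tail, sh_iter_apply, zero_add] at this
  exact this

lemma ext2_iter {H : (ℕ → Cell) → (ℕ → Cell)} (hH : Function.Commute H sh) (n : ℕ)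
    (x : ℤ → Fin 64) : (ext2 H)^[n] x = ext2 H^[n] x := by
  induction n with
  | zero => funext i; simp [ext2, tail]
  | succ n ih =>
    rw [Function.iterate_succ_apply', ih]
    funext i
    show code (H (tail i (ext2 H^[n] x)) 0) = code (H^[n + 1] (tail i x) 0)
    rw [tail_ext2 (hH.iterate_left n), Function.iterate_succ_apply']

lemma ext2_ext2 {H K : (ℕ → Cell) → (ℕ → Cell)} (hK : Function.Commute K sh)
    (h : ∀ y, H (K y) = y) (x : ℤ → Fin 64) : ext2 H (ext2 K x) = x := by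
  funext i
  show code (H (tail i (ext2 K x)) 0) = x i
  rw [tail_ext2 hK, h]
  simp [tail]

lemma cont_tail (i : ℤ) : Continuous (tail i) := by
  refine continuous_pi fun j => ?_
  have h : Continuous (fun q : Fin 64 => code.symm q) := continuous_of_discreteTopology
  exact h.comp (continuous_apply (i + j))

lemma cont_ext2 {H : (ℕ → Cell) → (ℕ → Cell)} (hH : Continuous H) : Continuous (ext2 H) := by
  refine continuous_pi fun i => ?_
  have h : Continuous (fun q : Cell => code q) := continuous_of_discreteTopology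
  exact h.comp ((continuous_apply 0).comp (hH.comp (cont_tail i)))

lemma isClosed_X2 : IsClosed X2 := by
  have : X2 = ⋂ i, tail i ⁻¹' X := by ext x; simp [X2]
  rw [this]
  exact isClosed_iInter fun i => isClosed_X.preimage (cont_tail i)

lemma X2_nonempty : X2.Nonempty := by
  have hc : ∀ n : ℕ, IsClosed (tail (-(n : ℤ)) ⁻¹' X) := fun n => isClosed_X.preimage (cont_tail _)
  obtain ⟨x, hx⟩ := IsCompact.nonempty_iInter_of_sequence_nonempty_isCompact_isClosed
    (fun n : ℕ => tail (-(n : ℤ)) ⁻¹' X)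
    (fun n x hx => by
      have := sh_iter_mem_X 1 hx
      rw [sh_iter_tail] at this
      show tail _ x ∈ X
      convert this using 2
      push_cast
      ring)
    (fun n => by
      obtain ⟨y, hy⟩ := X_nonempty
      refine ⟨fun i => code (y (i + n).toNat), ?_⟩
      show tail _ _ ∈ X
      convert hy using 1
      funext j
      simp [tail])
    (hc 0).isCompact hc
  rw [Set.mem_iInter] at hx
  refine ⟨x, fun i => ?_⟩
  have := sh_iter_mem_X (i + i.natAbs).toNat (hx i.natAbs)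
  rw [sh_iter_tail] at this
  convert this using 2
  omega

lemma tail_shift (i d : ℤ) (x : ℤ → Fin 64) : tail i (fun j => x (j + d)) = tail (i + d) x := by
  funext j
  simp only [tail]
  congr 2
  ring

lemma rad2 {H : (ℕ → Cell) → (ℕ → Cell)} {r : ℕ}
    (h : ∀ x ∈ X, ∀ y ∈ X, (∀ i ≤ r, x i = y i) → H x 0 = H y 0) :
    ∀ x ∈ X2, ∀ y ∈ X2, ∀ i : ℤ, (∀ j : ℤ, i ≤ j → j ≤ i + r → x j = y j) →
      ext2 H x i = ext2 H y i := by
  intro x hx y hy i hxy
  refine congrArg code (h _ (hx i) _ (hy i) fun j hj => ?_)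
  exact congrArg code.symm (hxy _ (by omega) (by omega))

theorem two_sided :
    ∃ (k : ℕ) (X : Set (ℤ → Fin k)) (f g : (ℤ → Fin k) → (ℤ → Fin k)),
      X.Nonempty ∧ IsClosed X ∧ (fun (x : ℤ → Fin k) (i : ℤ) => x (i + 1)) '' X = X ∧
      Set.MapsTo f X X ∧ Set.MapsTo g X X ∧ Set.InvOn g f X X ∧
      ContinuousOn f X ∧ ContinuousOn g X ∧
      (∀ x ∈ X, f (fun i => x (i + 1)) = fun i => f x (i + 1)) ∧
      (∃ r : ℕ, ∀ x ∈ X, ∀ y ∈ X, ∀ i : ℤ,
        (∀ j : ℤ, i ≤ j → j ≤ i + r → x j = y j) → f x i = f y i) ∧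
      (∃ r : ℕ, ∀ x ∈ X, ∀ y ∈ X, ∀ i : ℤ,
        (∀ j : ℤ, i ≤ j → j ≤ i + r → x j = y j) → g x i = g y i) ∧
      (∀ n : ℕ, 1 ≤ n → ∃ x ∈ X, f^[n] x ≠ x) ∧
      (∀ n : ℕ, 1 ≤ n → ∃ r : ℕ, (r : ℝ) ≤ 36 * Real.sqrt n ∧ ∀ x ∈ X, ∀ y ∈ X, ∀ i : ℤ,
        (∀ j : ℤ, i ≤ j → j ≤ i + r → x j = y j) → f^[n] x i = f^[n] y i) := by
  refine ⟨64, X2, ext2 F, ext2 G, X2_nonempty, isClosed_X2, ?_, ?_, ?_, ⟨?_, ?_⟩,
    (cont_ext2 cont_F).continuousOn, (cont_ext2 cont_G).continuousOn, ?_, ?_, ?_, ?_, ?_⟩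
  · apply Set.Subset.antisymm
    · rintro _ ⟨x, hx, rfl⟩ i
      rw [tail_shift]; exact hx _
    · intro x hx
      refine ⟨fun j => x (j + (-1)), fun i => ?_, ?_⟩
      · rw [tail_shift]; exact hx _
      · funext i; simp
  · intro x hx i
    rw [tail_ext2 comm_F_sh]; exact F_mem_X (hx i)
  · intro x hx i
    rw [tail_ext2 comm_G_sh]; exact G_mem_X (hx i)
  · exact fun x _ => ext2_ext2 comm_F_sh G_F x
  · exact fun x _ => ext2_ext2 comm_G_sh F_G x
  · intro x _
    funext i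
    simp only [ext2]
    rw [tail_shift]
  · refine ⟨2, rad2 fun x _ y _ h => ?_⟩
    exact Agree.F (m := 1) (fun i hi => h i (by omega)) 0 (by norm_num)
  · refine ⟨2, rad2 fun x _ y _ h => ?_⟩
    exact Agree.G (m := 1) (fun i hi => h i (by omega)) 0 (by norm_num)
  · intro n hn
    obtain ⟨x, hx⟩ := X2_nonempty
    refine ⟨x, hx, fun h => ?_⟩
    have h1 := congrArg (tail 0) h
    rw [ext2_iter comm_F_sh, tail_ext2 (comm_F_sh.iterate_left n)] at h1
    have := aperiodic (hx 0) h1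
    omega
  · intro n hn
    obtain ⟨r, hr, h⟩ := radius_sq n hn
    refine ⟨r, ?_, ?_⟩
    · have h3 : (r : ℝ) ^ 2 ≤ 1296 * n := by exact_mod_cast hr
      have h4 : (36 * Real.sqrt n) ^ 2 = 1296 * n := by
        rw [mul_pow, Real.sq_sqrt (Nat.cast_nonneg n)]; norm_num
      exact (abs_le_of_sq_le_sq' (by rw [h4]; exact h3) (by positivity)).2
    · intro x hx y hy i hxy
      rw [ext2_iter comm_F_sh, ext2_iter comm_F_sh]
      exact rad2 h x hx y hy i hxy

end Pool.Agent.MP_88e1ca_an
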